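import Pool.Agent.WAP.StmtsP2

namespace Pool.Agent.WAP.H2

open Classical Pool.Agent.WAP Pool.Agent.WAP.P2

section field
variable {F : Type} [Field F]

theorem onU_ne {z : F × F × F} (h : OnU z) :
    z.1 ≠ 0 ∧ z.1 ≠ 1 ∧ z.1 ≠ -1 ∧ z.2.1 ≠ 0 ∧ z.2.1 ≠ 1 ∧ z.2.1 ≠ -1 := by
  obtain ⟨h1, h2⟩ := h
  have h3 : cub z.1 * cub z.2.1 ≠ 0 := by
    rw [← h1]
    exact pow_ne_zero 2 h2
  have h4 := left_ne_zero_of_mul h3
  have h5 := right_ne_zero_of_mul h3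
  unfold cub at h4 h5
  refine ⟨?_, ?_, ?_, ?_, ?_, ?_⟩
  · intro h; rw [h] at h4; exact h4 (by ring)
  · intro h; rw [h] at h4; exact h4 (by ring)
  · intro h; rw [h] at h4; exact h4 (by ring)
  · intro h; rw [h] at h5; exact h5 (by ring)
  · intro h; rw [h] at h5; exact h5 (by ring)
  · intro h; rw [h] at h5; exact h5 (by ring)

theorem stp_sw [Algebra GaussianInt F] {z : F × F × F} (h : OnU z) : Step .sw (swf z) z := by
  refine ⟨⟨?_, ?_⟩, h, rfl⟩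
  · show z.2.2 ^ 2 = cub z.2.1 * cub z.1
    rw [h.1]
    ring
  · exact h.2

theorem stp_t0 [Algebra GaussianInt F] {z : F × F × F} (h : OnU z) : Step .t0 (t0f z) z := by
  obtain ⟨x, t, y⟩ := z
  have hne := onU_ne h
  obtain ⟨h1, h2⟩ := h
  simp only at hne h1 h2
  obtain ⟨-, -, -, ht, -, -⟩ := hne
  refine ⟨⟨?_, ?_⟩, ⟨h1, h2⟩, ?_⟩
  · show (y / t ^ 2) ^ 2 = cub x * cub (-1 / t)
    have : cub (-1 / t) = cub t / t ^ 4 := by
      unfold cub
      field_simp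
      ring
    rw [this, div_pow, h1]
    field_simp
  · show y / t ^ 2 ≠ 0
    exact div_ne_zero h2 (pow_ne_zero 2 ht)
  · show (x, t, y) = (x, -1 / (-1 / t), y / t ^ 2 / (-1 / t) ^ 2)
    refine Prod.ext rfl (Prod.ext ?_ ?_)
    · show t = -1 / (-1 / t)
      field_simp
    · show y = y / t ^ 2 / (-1 / t) ^ 2
      field_simp

theorem stp_tp [Algebra GaussianInt F] (h0 : (2 : F) ≠ 0) {z : F × F × F} (h : OnU z) :
    Step .tp (tpf z) z := by
  obtain ⟨x, t, y⟩ := z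
  have hne := onU_ne h
  obtain ⟨h1, h2⟩ := h
  simp only at hne h1 h2
  obtain ⟨-, -, -, ht, ht1, -⟩ := hne
  have h3 : t - 1 ≠ 0 := sub_ne_zero.2 ht1
  have h4 : (t + 1) / (t - 1) - 1 = 2 / (t - 1) := by
    field_simp
    ring
  have h5 : (t + 1) / (t - 1) - 1 ≠ 0 := by
    rw [h4]
    exact div_ne_zero h0 h3
  refine ⟨⟨?_, ?_⟩, ⟨h1, h2⟩, ?_⟩
  · show (-2 * y / (t - 1) ^ 2) ^ 2 = cub x * cub ((t + 1) / (t - 1))
    have : cub ((t + 1) / (t - 1)) = 4 * cub t / (t - 1) ^ 4 := by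
      unfold cub
      field_simp
      ring
    rw [this]
    have h6 : (-2 * y / (t - 1) ^ 2) ^ 2 = 4 * y ^ 2 / (t - 1) ^ 4 := by
      rw [div_pow]
      congr 1
      · ring
      · ring
    rw [h6, h1]
    ring
  · show -2 * y / (t - 1) ^ 2 ≠ 0
    exact div_ne_zero (mul_ne_zero (neg_ne_zero.2 h0) h2) (pow_ne_zero 2 h3)
  · show (x, t, y) = (x, ((t + 1) / (t - 1) + 1) / ((t + 1) / (t - 1) - 1),
      -2 * (-2 * y / (t - 1) ^ 2) / ((t + 1) / (t - 1) - 1) ^ 2)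
    refine Prod.ext rfl (Prod.ext ?_ ?_)
    · show t = ((t + 1) / (t - 1) + 1) / ((t + 1) / (t - 1) - 1)
      rw [h4]
      field_simp
      ring
    · show y = -2 * (-2 * y / (t - 1) ^ 2) / ((t + 1) / (t - 1) - 1) ^ 2
      rw [h4]
      field_simp
      try ring

theorem stp_tm [Algebra GaussianInt F] (h0 : (2 : F) ≠ 0) {z : F × F × F} (h : OnU z) :
    Step .tm (tmf z) z := by
  obtain ⟨x, t, y⟩ := z
  have hne := onU_ne h
  obtain ⟨h1, h2⟩ := h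
  simp only at hne h1 h2
  obtain ⟨-, -, -, ht, -, ht1⟩ := hne
  have h3 : t + 1 ≠ 0 := by
    intro h
    exact ht1 (eq_neg_of_add_eq_zero_left h)
  have h3' : 1 + t ≠ 0 := by
    rw [add_comm]
    exact h3
  have h4 : (1 - t) / (1 + t) + 1 = 2 / (1 + t) := by
    field_simp
    ring
  refine ⟨⟨?_, ?_⟩, ⟨h1, h2⟩, ?_⟩
  · show (-2 * y / (t + 1) ^ 2) ^ 2 = cub x * cub ((1 - t) / (1 + t))
    have : cub ((1 - t) / (1 + t)) = 4 * cub t / (t + 1) ^ 4 := by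
      unfold cub
      rw [show (t + 1) = 1 + t by ring]
      field_simp
      ring
    rw [this]
    have h6 : (-2 * y / (t + 1) ^ 2) ^ 2 = 4 * y ^ 2 / (t + 1) ^ 4 := by
      rw [div_pow]
      congr 1
      · ring
      · ring
    rw [h6, h1]
    ring
  · show -2 * y / (t + 1) ^ 2 ≠ 0
    exact div_ne_zero (mul_ne_zero (neg_ne_zero.2 h0) h2) (pow_ne_zero 2 h3)
  · show (x, t, y) = (x, (1 - (1 - t) / (1 + t)) / (1 + (1 - t) / (1 + t)),
      -2 * (-2 * y / (t + 1) ^ 2) / ((1 - t) / (1 + t) + 1) ^ 2)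
    have h7 : 1 + (1 - t) / (1 + t) = 2 / (1 + t) := by
      rw [add_comm]
      exact h4
    refine Prod.ext rfl (Prod.ext ?_ ?_)
    · show t = (1 - (1 - t) / (1 + t)) / (1 + (1 - t) / (1 + t))
      rw [h7]
      field_simp
      ring
    · show y = -2 * (-2 * y / (t + 1) ^ 2) / ((1 - t) / (1 + t) + 1) ^ 2
      rw [h4, show (t + 1) = 1 + t by ring]
      field_simp
      try ring

end field

/-- one coordinate -/
theorem bs_half (hT : TysStmt) (F : Type) [NormedField F] [Algebra GaussianInt F] (v : F → ℤ)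
    (hv : IsV F v) (z : F × F × F) (h : OnU z) (hA : ¬ TypA v z.2.1) :
    ∃ (L : List Letter) (u : F × F × F), OnU u ∧ u.1 = z.1 ∧ v u.2.1 < 0 ∧ Run L u z := by
  have hne := onU_ne h
  obtain ⟨-, -, -, ht, ht1, htm⟩ := hne
  have key : ∀ (l : Letter) (u : F × F × F), Step l u z → Run [l] u z := by
    intro l u hs
    exact ⟨z, hs, hs.2.1, rfl⟩
  rcases hT F v hv z.2.1 ht ht1 htm hA with h1 | h1 | h1 | h1
  · exact ⟨[], z, h, rfl, h1, h, rfl⟩
  · exact ⟨[.t0], t0f z, (stp_t0 h).1, rfl, h1, key _ _ (stp_t0 h)⟩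
  · exact ⟨[.tp], tpf z, (stp_tp hv.two_ne h).1, rfl, h1, key _ _ (stp_tp hv.two_ne h)⟩
  · exact ⟨[.tm], tmf z, (stp_tm hv.two_ne h).1, rfl, h1, key _ _ (stp_tm hv.two_ne h)⟩

theorem run_append {F : Type} [Field F] [Algebra GaussianInt F] (L M : List Letter) :
    ∀ (z z1 z' : F × F × F), Run L z z1 → Run M z1 z' → Run (L ++ M) z z' := by
  induction L with
  | nil =>
    intro z z1 z' h1 h2
    obtain ⟨-, h3⟩ := h1
    subst h3
    exact h2
  | cons l L ih =>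
    intro z z1 z' h1 h2
    obtain ⟨z2, hs, hr⟩ := h1
    exact ⟨z2, hs, ih z2 z1 z' hr h2⟩

theorem bs1 (hT : TysStmt) (hF : FreStmt) : Bs1Stmt := by
  intro F _ _ v hv z hz hA1 hA2
  obtain ⟨L1, u1, hu1, h11, h12, hr1⟩ := bs_half hT F v hv z hz hA2
  have hs1 := stp_sw hu1
  obtain ⟨L2, u2, hu2, h21, h22, hr2⟩ := bs_half hT F v hv (swf u1) hs1.1 (by
    show ¬ TypA v u1.1
    rw [h11]
    exact hA1)
  have hr3 : Run (L2 ++ ([.sw] ++ L1)) u2 z :=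
    run_append _ _ _ _ _ hr2 (run_append _ _ _ _ _ ⟨u1, hs1, hu1, rfl⟩ hr1)
  -- both coordinates of u2 are big
  have hb1 : v u2.1 < 0 := by
    rw [h21]
    exact h12
  have hne := onU_ne hu2
  have hB1 : 1 < ‖u2.1‖ := (hv.one_lt_iff _ hne.1).2 hb1
  have hB2 : 1 < ‖u2.2.1‖ := (hv.one_lt_iff _ hne.2.2.2.1).2 h22
  obtain ⟨hd, hk, hP, hQ⟩ := hF F hv.two_ne u2 hu2
  have hx : cX (frP u2) / cub u2.1 = u2.1 := congrArg Prod.fst hk
  have ht : cX (frQ u2) / cub u2.1 = u2.2.1 := congrArg (fun w => w.2.1) hk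
  have hbP : Big 1 (frP u2) := Or.inr (by rw [hx]; exact hB1)
  have hbQ : Big 1 (frQ u2) := Or.inr (by rw [ht]; exact hB2)
  have hone : ∀ R : Pt (cub u2.1), sm (2 ^ 0) R = R := by
    intro R
    rw [pow_zero]
    show ((1 : GaussianInt).re) • R + ((1 : GaussianInt).im) • iPt R = R
    simp
  rcases le_total ‖cz (frQ u2)‖ ‖cz (frP u2)‖ with hle | hle
  · refine ⟨_, u2, ⟨hu2, cub u2.1, frP u2, frQ u2, 0, hd, hk.symm, ?_, ?_, hbQ, ?_⟩, hr3⟩
    · rw [hone]; exact hbP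
    · rw [hone]; exact hP
    · rw [hone]; exact hle
  · have hs2 := stp_sw hu2
    refine ⟨[.sw] ++ (L2 ++ ([.sw] ++ L1)), swf u2,
      ⟨hs2.1, cub u2.1, frQ u2, frP u2, 0, hd, ?_, ?_, ?_, hbP, ?_⟩,
      run_append _ _ _ _ _ ⟨u2, hs2, hu2, rfl⟩ hr3⟩
    · have h3 : kum (cub u2.1) (frQ u2) (frP u2) = swf (kum (cub u2.1) (frP u2) (frQ u2)) := by
        unfold kum swf
        refine Prod.ext rfl (Prod.ext rfl ?_)
        show cY (frQ u2) * cY (frP u2) / cub u2.1 ^ 3 = cY (frP u2) * cY (frQ u2) / cub u2.1 ^ 3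
        ring
      rw [h3, hk]
    · rw [hone]; exact hbQ
    · rw [hone]; exact hQ
    · rw [hone]; exact hle

end Pool.Agent.WAP.H2
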