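import Pool.Agent.WAP.StmtsI

namespace Pool.Agent.WAP.H2

open Classical Pool.Agent.WAP

theorem crt : CrtStmt := by
  intro ι ϖ S N k hp hna
  induction S using Finset.induction_on with
  | empty => exact ⟨0, fun v hv => absurd hv (Finset.notMem_empty v)⟩
  | insert q S hq ih =>
    obtain ⟨k1, hk1⟩ := ih (fun v hv => hp v (Finset.mem_insert_of_mem hv))
      (fun v hv w hw => hna v (Finset.mem_insert_of_mem hv) w (Finset.mem_insert_of_mem hw))
    have hcop : IsCoprime (ϖ q ^ N q) (∏ v ∈ S, ϖ v ^ N v) := by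
      refine IsCoprime.prod_right fun v hv => ?_
      refine IsCoprime.pow ?_
      have hne : q ≠ v := fun h => hq (h ▸ hv)
      have h1 : ¬ Associated (ϖ q) (ϖ v) :=
        hna q (Finset.mem_insert_self q S) v (Finset.mem_insert_of_mem hv) hne
      have h2 : Irreducible (ϖ q) := (hp q (Finset.mem_insert_self q S)).irreducible
      have h3 : Irreducible (ϖ v) := (hp v (Finset.mem_insert_of_mem hv)).irreducible
      rcases EuclideanDomain.dvd_or_coprime (ϖ q) (ϖ v) h2 with h | h
      · exact absurd (h2.associated_of_dvd h3 h) h1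
      · exact h
    obtain ⟨a, b, hab⟩ := hcop
    refine ⟨k1 + b * (∏ v ∈ S, ϖ v ^ N v) * (k q - k1), fun v hv => ?_⟩
    rcases Finset.mem_insert.1 hv with h | h
    · subst h
      have h4 : k1 + b * (∏ v ∈ S, ϖ v ^ N v) * (k v - k1) - k v
          = ϖ v ^ N v * (-(a * (k v - k1))) := by
        linear_combination (k v - k1) * hab
      rw [h4]
      exact dvd_mul_right _ _
    · have h5 : ϖ v ^ N v ∣ ∏ w ∈ S, ϖ w ^ N w := Finset.dvd_prod_of_mem _ h
      have h6 : k1 + b * (∏ v ∈ S, ϖ v ^ N v) * (k q - k1) - k v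
          = (k1 - k v) + (∏ v ∈ S, ϖ v ^ N v) * (b * (k q - k1)) := by ring
      rw [h6]
      exact dvd_add (hk1 v h) (Dvd.dvd.mul_right h5 _)

end Pool.Agent.WAP.H2
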