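import Pool.Agent.WAP.StmtsP2
import Pool.Agent.WAP.StmtsM
import Pool.Agent.WAP.Alg

namespace Pool.Agent.WAP.H2

open Classical Pool.Agent.WAP Pool.Agent.WAP.P2

section
variable {F : Type} [NormedField F] [Algebra GaussianInt F] {v : F → ℤ}

theorem v_i (hv : IsV F v) : algebraMap GaussianInt F ⟨0, 1⟩ ≠ 0 ∧
    v (algebraMap GaussianInt F ⟨0, 1⟩) = 0 := by
  have h1 : algebraMap GaussianInt F ⟨0, 1⟩ * algebraMap GaussianInt F ⟨0, 1⟩ = -1 := by
    rw [← map_mul, ← map_one (algebraMap GaussianInt F), ← map_neg]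
    congr 1
  have h2 : algebraMap GaussianInt F ⟨0, 1⟩ ≠ 0 := by
    intro h
    rw [h, zero_mul] at h1
    exact neg_ne_zero.2 one_ne_zero h1.symm
  refine ⟨h2, ?_⟩
  have h3 := hv.mul _ _ h2 h2
  rw [h1, hv.neg_one] at h3
  omega

/-- the valuation of the denominator -/
theorem v_den (hv : IsV F v) {x : F} (hx : x ≠ 0) :
    2 * algebraMap GaussianInt F ⟨0, 1⟩ * x ≠ 0 ∧ v (2 * algebraMap GaussianInt F ⟨0, 1⟩ * x) = 2 + v x := by
  obtain ⟨hi, hvi⟩ := v_i hv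
  have h1 : 2 * algebraMap GaussianInt F ⟨0, 1⟩ ≠ 0 := mul_ne_zero hv.two_ne hi
  refine ⟨mul_ne_zero h1 hx, ?_⟩
  rw [hv.mul _ _ h1 hx, hv.mul _ _ hv.two_ne hi, hvi, hv.two]
  omega

/-- one step -/
theorem v_step (hv : IsV F v) {x x' : F} (hx : x ≠ 0) (hx1 : x ^ 2 - 1 ≠ 0)
    (h : x' * (2 * algebraMap GaussianInt F ⟨0, 1⟩ * x) = x ^ 2 - 1) :
    x' ≠ 0 ∧ v x' = v (x ^ 2 - 1) - 2 - v x := by
  obtain ⟨h1, h2⟩ := v_den hv hx
  have h3 : x' ≠ 0 := by
    intro h0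
    rw [h0, zero_mul] at h
    exact hx1 h.symm
  refine ⟨h3, ?_⟩
  have h4 := hv.mul _ _ h3 h1
  rw [h, h2] at h4
  omega

theorem sq_sub (x : F) : x ^ 2 - 1 = (x - 1) * (x + 1) := by ring

theorem v_neg_case (hv : IsV F v) {x x' : F} (hx : x ≠ 0) (hvx : v x < 0)
    (h : x' * (2 * algebraMap GaussianInt F ⟨0, 1⟩ * x) = x ^ 2 - 1) :
    x' ≠ 0 ∧ v x' = v x - 2 := by
  have h1 : v (x ^ 2) = 2 * v x := by
    have := hv.pow x hx 2
    exact_mod_cast this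
  obtain ⟨h2, h3⟩ := hv.add_lt (x ^ 2) (-1) (pow_ne_zero 2 hx) (Or.inr (by
    rw [h1, hv.neg_one]
    omega))
  rw [← sub_eq_add_neg] at h2 h3
  obtain ⟨h4, h5⟩ := v_step hv hx h2 h
  exact ⟨h4, by rw [h5, h3, h1]; omega⟩

theorem v_pos_case (hv : IsV F v) {x x' : F} (hx : x ≠ 0) (hvx : 0 < v x)
    (h : x' * (2 * algebraMap GaussianInt F ⟨0, 1⟩ * x) = x ^ 2 - 1) :
    x' ≠ 0 ∧ v x' < 0 := by
  have h1 : v (x ^ 2) = 2 * v x := by
    have := hv.pow x hx 2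
    exact_mod_cast this
  obtain ⟨h2, h3⟩ := hv.add_lt (-1) (x ^ 2) (neg_ne_zero.2 one_ne_zero) (Or.inr (by
    rw [h1, hv.neg_one]
    omega))
  have h6 : -1 + x ^ 2 = x ^ 2 - 1 := by ring
  rw [h6] at h2 h3
  obtain ⟨h4, h5⟩ := v_step hv hx h2 h
  exact ⟨h4, by rw [h5, h3, hv.neg_one]; omega⟩

/-- the case `v (x - 1) ≥ 2` -/
theorem v_unit2 (hv : IsV F v) {x x' : F} (hx : x ≠ 0) (hx1 : x ≠ 1) (hxm : x ≠ -1)
    (hvx : v x = 0) (h2 : 2 ≤ v (x - 1))
    (h : x' * (2 * algebraMap GaussianInt F ⟨0, 1⟩ * x) = x ^ 2 - 1) :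
    x' ≠ 0 ∧ 0 < v x' := by
  have e1 : x - 1 ≠ 0 := sub_ne_zero.2 hx1
  have e2 : x + 1 ≠ 0 := fun h => hxm (eq_neg_of_add_eq_zero_left h)
  have h3 : x ^ 2 - 1 ≠ 0 := by
    rw [sq_sub]
    exact mul_ne_zero e1 e2
  obtain ⟨h4, h5⟩ := v_step hv hx h3 h
  refine ⟨h4, ?_⟩
  rw [h5, sq_sub, hv.mul _ _ e1 e2, hvx]
  have h6 : 5 ≤ v (x - 1) + v (x + 1) := by
    rcases lt_or_ge 2 (v (x - 1)) with h7 | h7
    · obtain ⟨-, h8⟩ := hv.add_lt 2 (x - 1) hv.two_ne (Or.inr (by rw [hv.two]; exact h7))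
      have h9 : 2 + (x - 1) = x + 1 := by ring
      rw [h9, hv.two] at h8
      omega
    · have h7' : v (x - 1) = 2 := le_antisymm h7 h2
      set e := (x - 1) / 2 with he
      have hx2 : x - 1 = 2 * e := by
        rw [he]
        field_simp [hv.two_ne]
      have he0 : e ≠ 0 := by
        intro h0
        rw [h0, mul_zero] at hx2
        exact e1 hx2
      have hve : v e = 0 := by
        have := hv.mul 2 e hv.two_ne he0
        rw [← hx2, hv.two, h7'] at this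
        omega
      have hx3 : x + 1 = 2 * (e + 1) := by linear_combination hx2
      have he1 : e + 1 ≠ 0 := by
        intro h0
        rw [h0, mul_zero] at hx3
        exact e2 hx3
      have h10 : 1 ≤ v (-e - 1) := by
        apply hv.res (-e) (neg_ne_zero.2 he0)
        · rw [hv.neg e he0]; exact hve
        · intro h0
          apply he1
          linear_combination -h0
      have h11 : -e - 1 = -(e + 1) := by ring
      rw [h11, hv.neg _ he1] at h10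
      have h12 := hv.mul 2 (e + 1) hv.two_ne he1
      rw [← hx3, hv.two] at h12
      omega
  omega

/-- the case `v (x - 1) = 1` -/
theorem v_unit1 (hv : IsV F v) {x x' : F} (hx : x ≠ 0) (hx1 : x ≠ 1) (hxm : x ≠ -1)
    (hvx : v x = 0) (h1 : v (x - 1) = 1)
    (h : x' * (2 * algebraMap GaussianInt F ⟨0, 1⟩ * x) = x ^ 2 - 1) :
    x' ≠ 0 ∧ v x' = 0 ∧ (x' = 1 ∨ 2 ≤ v (x' - 1)) := by
  have e1 : x - 1 ≠ 0 := sub_ne_zero.2 hx1
  have e2 : x + 1 ≠ 0 := fun h => hxm (eq_neg_of_add_eq_zero_left h)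
  have h3 : x ^ 2 - 1 ≠ 0 := by
    rw [sq_sub]
    exact mul_ne_zero e1 e2
  obtain ⟨h4, h5⟩ := v_step hv hx h3 h
  have h6 : v (x + 1) = 1 := by
    obtain ⟨-, h8⟩ := hv.add_lt (x - 1) 2 e1 (Or.inr (by rw [hv.two, h1]; norm_num))
    have h9 : x - 1 + 2 = x + 1 := by ring
    rw [h9, h1] at h8
    exact h8
  have h7 : v x' = 0 := by
    rw [h5, sq_sub, hv.mul _ _ e1 e2, hvx, h1, h6]
    norm_num
  refine ⟨h4, h7, ?_⟩
  by_cases hx' : x' = 1
  · exact Or.inl hx'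
  right
  -- the number `i` and `la = 1 + i`
  set j := algebraMap GaussianInt F ⟨0, 1⟩ with hj
  have hj2 : j * j = -1 := by
    rw [hj, ← map_mul, ← map_one (algebraMap GaussianInt F), ← map_neg]
    congr 1
  have hla : la F = 1 + j := by
    unfold la lam
    rw [hj, ← map_one (algebraMap GaussianInt F), ← map_add]
    congr 1
  have hla0 : la F ≠ 0 := norm_pos_iff.1 hv.pos
  have hlav : v (la F) = 1 := by
    have h8 := hv.norm (la F) hla0
    have h9 : ‖la F‖ ^ (v (la F)) = ‖la F‖ ^ (1 : ℤ) := by rw [← h8, zpow_one]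
    exact (zpow_right_injective₀ hv.pos hv.lt.ne) h9
  obtain ⟨hj0, hjv⟩ := v_i hv
  rw [← hj] at hj0 hjv
  set e := (x - 1) / la F with he
  have hxe : x - 1 = la F * e := by
    rw [he]
    field_simp
  have he0 : e ≠ 0 := by
    intro h0
    rw [h0, mul_zero] at hxe
    exact e1 hxe
  have hve : v e = 0 := by
    have := hv.mul (la F) e hla0 he0
    rw [← hxe, hlav, h1] at this
    omega
  -- `x' * x * 2j = la^2 e (e - j la)`, `la^2 = 2 j`
  have hl2 : la F ^ 2 = 2 * j := by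
    rw [hla]
    linear_combination hj2
  have h2j : 2 * j ≠ 0 := mul_ne_zero hv.two_ne hj0
  have hx2 : x = 1 + la F * e := by linear_combination hxe
  have e3 : x' * x = e * (e - j * la F) := by
    apply mul_left_cancel₀ h2j
    have h10 : 2 * j * (x' * x) = x ^ 2 - 1 := by rw [← h]; ring
    rw [h10, hx2]
    have h11 : (1 + la F * e) ^ 2 - 1 = la F * (2 * e + la F * e ^ 2) := by ring
    rw [h11]
    -- `2 = - j la ^ 2`
    have h12 : (2 : F) = -j * la F ^ 2 := by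
      rw [hl2]
      linear_combination 2 * hj2
    have h13 : la F * (2 * e + la F * e ^ 2) = la F ^ 2 * (e ^ 2 - j * la F * e) := by
      have : la F * (2 * e + la F * e ^ 2) = la F * (2 * e) + la F ^ 2 * e ^ 2 := by ring
      rw [this]
      linear_combination (la F * e) * h12
    rw [h13, hl2]
    ring
  -- `(x' - 1) * x = e ^ 2 - 1 - la (j e + e)`
  have e4 : (x' - 1) * x = (e ^ 2 - 1) - la F ^ 2 * e := by
    have : (x' - 1) * x = x' * x - x := by ring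
    rw [this, e3, hx2, hla]
    ring
  have hne : x' - 1 ≠ 0 := sub_ne_zero.2 hx'
  have h14 : v (x' - 1) = v ((x' - 1) * x) := by
    rw [hv.mul _ _ hne hx, hvx]
    omega
  rw [h14, e4]
  have hne2 : (e ^ 2 - 1) - la F ^ 2 * e ≠ 0 := by
    rw [← e4]
    exact mul_ne_zero hne hx
  have h15 : v (la F ^ 2 * e) = 2 := by
    rw [hv.mul _ _ (pow_ne_zero 2 hla0) he0, hve, hv.pow _ hla0, hlav]
    norm_num
  have h16 : la F ^ 2 * e ≠ 0 := mul_ne_zero (pow_ne_zero 2 hla0) he0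
  by_cases h17 : e ^ 2 - 1 = 0
  · rw [h17, zero_sub, hv.neg _ h16, h15]
  · have h18 := hv.add (e ^ 2 - 1) (-(la F ^ 2 * e)) h17 (neg_ne_zero.2 h16) (by
      rw [← sub_eq_add_neg]; exact hne2)
    rw [← sub_eq_add_neg, hv.neg _ h16, h15] at h18
    have h19 : 2 ≤ v (e ^ 2 - 1) := by
      have e5 : e - 1 ≠ 0 := by
        intro h0
        apply h17
        rw [sq_sub, h0, zero_mul]
      have e6 : e + 1 ≠ 0 := by
        intro h0
        apply h17
        rw [sq_sub, h0, mul_zero]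
      have h20 : 1 ≤ v (e - 1) := hv.res e he0 hve (fun h0 => e5 (by rw [h0, sub_self]))
      have h21 : 1 ≤ v (-e - 1) := by
        apply hv.res (-e) (neg_ne_zero.2 he0)
        · rw [hv.neg e he0]; exact hve
        · intro h0
          apply e6
          linear_combination -h0
      have h22 : -e - 1 = -(e + 1) := by ring
      rw [h22, hv.neg _ e6] at h21
      rw [sq_sub, hv.mul _ _ e5 e6]
      omega
    omega

/-- the point with the number `j` of steps -/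
theorem k2g_low (hv : IsV F v) (hL : LaxStmt) {d : F} (hd : d ≠ 0) (P : Pt d) :
    ∃ j : ℕ, sm (lam ^ j) P = 0 ∨ (cX (sm (lam ^ j) P) / d ≠ 0 ∧ v (cX (sm (lam ^ j) P) / d) < 0) := by
  -- one step on points
  have stp : ∀ Q : Pt d, Q ≠ 0 → cX Q / d ≠ 0 → sm lam Q ≠ 0 ∧
      (cX (sm lam Q) / d) * (2 * algebraMap GaussianInt F ⟨0, 1⟩ * (cX Q / d)) = (cX Q / d) ^ 2 - 1 := by
    intro Q hQ hx
    have hX : cX Q ≠ 0 := by
      intro h0
      rw [h0, zero_div] at hx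
      exact hx rfl
    obtain ⟨h1, h2⟩ := (hL F d hv.two_ne hd Q hQ).2 hX
    refine ⟨h1, ?_⟩
    have h3 : (cX (sm lam Q) / d) * (2 * algebraMap GaussianInt F ⟨0, 1⟩ * (cX Q / d))
        = (cX (sm lam Q) * (2 * algebraMap GaussianInt F ⟨0, 1⟩ * cX Q)) / d ^ 2 := by
      field_simp
    rw [h3, h2]
    field_simp
  have stp0 : ∀ Q : Pt d, Q ≠ 0 → cX Q / d = 0 → sm lam Q = 0 := by
    intro Q hQ hx
    apply (hL F d hv.two_ne hd Q hQ).1
    rcases div_eq_zero_iff.1 hx with h | h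
    · exact h
    · exact absurd h hd
  have nxt : ∀ (j : ℕ) (Q : Pt d), (∃ k : ℕ, sm (lam ^ k) (sm (lam ^ j) Q) = 0 ∨
      (cX (sm (lam ^ k) (sm (lam ^ j) Q)) / d ≠ 0 ∧ v (cX (sm (lam ^ k) (sm (lam ^ j) Q)) / d) < 0)) →
      ∃ j : ℕ, sm (lam ^ j) Q = 0 ∨ (cX (sm (lam ^ j) Q) / d ≠ 0 ∧ v (cX (sm (lam ^ j) Q) / d) < 0) := by
    rintro j Q ⟨k, hk⟩
    refine ⟨k + j, ?_⟩
    rw [pow_add, G.mul_sm]
    exact hk
  have sm1 : ∀ Q : Pt d, sm (lam ^ 1) Q = sm lam Q := by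
    intro Q
    rw [pow_one]
  -- case `v x > 0`
  have cPos : ∀ Q : Pt d, Q ≠ 0 → cX Q / d ≠ 0 → 0 < v (cX Q / d) →
      ∃ j : ℕ, sm (lam ^ j) Q = 0 ∨ (cX (sm (lam ^ j) Q) / d ≠ 0 ∧ v (cX (sm (lam ^ j) Q) / d) < 0) := by
    intro Q hQ hx hvx
    obtain ⟨h1, h2⟩ := stp Q hQ hx
    exact ⟨1, Or.inr (by rw [sm1]; exact v_pos_case hv hx hvx h2)⟩
  -- case `x = 0`
  have cZero : ∀ Q : Pt d, Q ≠ 0 → cX Q / d = 0 →
      ∃ j : ℕ, sm (lam ^ j) Q = 0 ∨ (cX (sm (lam ^ j) Q) / d ≠ 0 ∧ v (cX (sm (lam ^ j) Q) / d) < 0) := by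
    intro Q hQ hx
    exact ⟨1, Or.inl (by rw [sm1]; exact stp0 Q hQ hx)⟩
  -- case `x = 1` or `x = -1`
  have cOne : ∀ Q : Pt d, Q ≠ 0 → (cX Q / d = 1 ∨ cX Q / d = -1) →
      ∃ j : ℕ, sm (lam ^ j) Q = 0 ∨ (cX (sm (lam ^ j) Q) / d ≠ 0 ∧ v (cX (sm (lam ^ j) Q) / d) < 0) := by
    intro Q hQ hx
    have hx0 : cX Q / d ≠ 0 := by
      rcases hx with h | h
      · rw [h]; exact one_ne_zero
      · rw [h]; exact neg_ne_zero.2 one_ne_zero
    obtain ⟨h1, h2⟩ := stp Q hQ hx0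
    have h3 : cX (sm lam Q) / d = 0 := by
      have h4 : (cX Q / d) ^ 2 - 1 = 0 := by
        rcases hx with h | h
        · rw [h]; ring
        · rw [h]; ring
      rw [h4] at h2
      rcases mul_eq_zero.1 h2 with h | h
      · exact h
      · exact absurd h (v_den hv hx0).1
    apply nxt 1 Q
    rw [sm1]
    exact cZero _ h1 h3
  -- case `v x = 0`, `v (x - 1) ≥ 2`
  have cU2 : ∀ Q : Pt d, Q ≠ 0 → cX Q / d ≠ 0 → v (cX Q / d) = 0 →
      (cX Q / d = 1 ∨ 2 ≤ v (cX Q / d - 1)) →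
      ∃ j : ℕ, sm (lam ^ j) Q = 0 ∨ (cX (sm (lam ^ j) Q) / d ≠ 0 ∧ v (cX (sm (lam ^ j) Q) / d) < 0) := by
    intro Q hQ hx hvx h2
    by_cases h3 : cX Q / d = 1
    · exact cOne Q hQ (Or.inl h3)
    by_cases h4 : cX Q / d = -1
    · exact cOne Q hQ (Or.inr h4)
    have h5 : 2 ≤ v (cX Q / d - 1) := by
      rcases h2 with h | h
      · exact absurd h h3
      · exact h
    obtain ⟨h6, h7⟩ := stp Q hQ hx
    obtain ⟨h8, h9⟩ := v_unit2 hv hx h3 h4 hvx h5 h7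
    apply nxt 1 Q
    rw [sm1]
    exact cPos _ h6 h8 h9
  by_cases hP : P = 0
  · exact ⟨0, Or.inl (by rw [hP]; exact G.sm_zero _)⟩
  by_cases hx0 : cX P / d = 0
  · exact cZero P hP hx0
  rcases lt_trichotomy (v (cX P / d)) 0 with h1 | h1 | h1
  · refine ⟨0, Or.inr ?_⟩
    rw [pow_zero, G.one_sm]
    exact ⟨hx0, h1⟩
  · by_cases h3 : cX P / d = 1
    · exact cOne P hP (Or.inl h3)
    by_cases h4 : cX P / d = -1
    · exact cOne P hP (Or.inr h4)
    have h5 := hv.res _ hx0 h1 h3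
    rcases lt_or_ge (v (cX P / d - 1)) 2 with h6 | h6
    · have h7 : v (cX P / d - 1) = 1 := by omega
      obtain ⟨h8, h9⟩ := stp P hP hx0
      obtain ⟨h10, h11, h12⟩ := v_unit1 hv hx0 h3 h4 h1 h7 h9
      apply nxt 1 P
      rw [sm1]
      exact cU2 _ h8 h10 h11 h12
    · exact cU2 P hP hx0 h1 (Or.inr h6)
  · exact cPos P hP hx0 h1

end

theorem k2g (hV : VexStmt) (hL : LaxStmt) : Pool.Agent.WAP.P2.K2gStmt := by
  intro F _ _ ϖ hloc h2 d P N hd
  obtain ⟨v, hv⟩ := hV F ϖ hloc h2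
  obtain ⟨j0, hj0⟩ := k2g_low hv hL hd P
  rcases hj0 with h | ⟨h1, h3⟩
  · exact ⟨j0, Or.inl h⟩
  -- growth
  have key : ∀ k : ℕ, cX (sm (lam ^ (k + j0)) P) / d ≠ 0 ∧
      v (cX (sm (lam ^ (k + j0)) P) / d) ≤ -1 - 2 * (k : ℤ) := by
    intro k
    induction k with
    | zero =>
      rw [zero_add]
      refine ⟨h1, ?_⟩
      push_cast
      omega
    | succ k ih =>
      obtain ⟨ih1, ih2⟩ := ih
      have hne : sm (lam ^ (k + j0)) P ≠ 0 := by
        intro h0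
        rw [h0] at ih1
        apply ih1
        show (0 : F) / d = 0
        exact zero_div d
      have hX : cX (sm (lam ^ (k + j0)) P) ≠ 0 := by
        intro h0
        rw [h0, zero_div] at ih1
        exact ih1 rfl
      have e1 : sm (lam ^ (k + 1 + j0)) P = sm lam (sm (lam ^ (k + j0)) P) := by
        rw [← G.mul_sm]
        congr 1
        ring
      obtain ⟨-, h4⟩ := (hL F d hv.two_ne hd _ hne).2 hX
      have h5 : (cX (sm lam (sm (lam ^ (k + j0)) P)) / d) *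
          (2 * algebraMap GaussianInt F ⟨0, 1⟩ * (cX (sm (lam ^ (k + j0)) P) / d))
          = (cX (sm (lam ^ (k + j0)) P) / d) ^ 2 - 1 := by
        have h6 : (cX (sm lam (sm (lam ^ (k + j0)) P)) / d) *
          (2 * algebraMap GaussianInt F ⟨0, 1⟩ * (cX (sm (lam ^ (k + j0)) P) / d))
          = (cX (sm lam (sm (lam ^ (k + j0)) P)) *
            (2 * algebraMap GaussianInt F ⟨0, 1⟩ * cX (sm (lam ^ (k + j0)) P))) / d ^ 2 := by
          field_simp
        rw [h6, h4]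
        field_simp
      obtain ⟨h7, h8⟩ := v_neg_case hv ih1 (by omega) h5
      rw [e1]
      refine ⟨h7, ?_⟩
      rw [h8]
      push_cast
      omega
  -- choose k large
  have hlim : ∃ k : ℕ, N < (‖la F‖⁻¹) ^ k := by
    apply pow_unbounded_of_one_lt
    exact (one_lt_inv₀ hv.pos).2 hv.lt
  obtain ⟨k, hk⟩ := hlim
  refine ⟨k + j0, Or.inr ?_⟩
  obtain ⟨h4, h5⟩ := key k
  rw [hv.norm _ h4]
  refine lt_of_lt_of_le hk ?_
  rw [inv_pow, ← zpow_natCast, ← zpow_neg]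
  exact zpow_le_zpow_right_of_le_one₀ hv.pos hv.lt.le (by omega)

end Pool.Agent.WAP.H2
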