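import Pool.Agent.Helper10_WAP.HAL
import Pool.Agent.Helper10_WAP.VEX
import Pool.Agent.Helper12_WAP.RG2
import Pool.Agent.Helper13_WAP.CCT
import Pool.Agent.Helper13_WAP.CDF
import Pool.Agent.Helper13_WAP.EGN
import Pool.Agent.Helper13_WAP.FIN
import Pool.Agent.Helper13_WAP.IND
import Pool.Agent.Helper13_WAP.SAP
import Pool.Agent.Helper16_WAP.DEG
import Pool.Agent.Helper19_WAP.EVN
import Pool.Agent.Helper19_WAP.SMN
import Pool.Agent.Helper1_WAP.CZA
import Pool.Agent.Helper24_WAP.CTB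
import Pool.Agent.Helper23_WAP.K2G
import Pool.Agent.Helper8_WAP.CDV
import Pool.Agent.Helper95_WAP.CGR
import Pool.Agent.Helper95_WAP.BFI
import Pool.Agent.Helper90_WAP.PRJ
import Pool.Agent.Helper24_WAP.INF
import Pool.Agent.Helper26_WAP.ZAL
import Pool.Agent.Helper27_WAP.COL
import Pool.Agent.Helper27_WAP.DGN
import Pool.Agent.Helper2_WAP.BS1
import Pool.Agent.Helper2_WAP.FUN
import Pool.Agent.Helper2_WAP.RUI
import Pool.Agent.Helper32_WAP.CNA
import Pool.Agent.Helper32_WAP.TRX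
import Pool.Agent.Helper32_WAP.ZAD
import Pool.Agent.Helper33_WAP.CNT
import Pool.Agent.Helper33_WAP.CONT
import Pool.Agent.Helper33_WAP.DEN
import Pool.Agent.Helper33_WAP.GNP
import Pool.Agent.Helper33_WAP.RUD
import Pool.Agent.Helper35_WAP.APX
import Pool.Agent.Helper35_WAP.BAT
import Pool.Agent.Helper35_WAP.INJ
import Pool.Agent.Helper39_WAP.NRM
import Pool.Agent.Helper40_WAP.GExp
import Pool.Agent.Helper44_WAP.NQT
import Pool.Agent.Helper45_WAP.PT2
import Pool.Agent.Helper46_WAP.CFI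
import Pool.Agent.Helper46_WAP.TOB
import Pool.Agent.Helper47_WAP.CLI
import Pool.Agent.Helper49_WAP.APT
import Pool.Agent.Helper49_WAP.CXF
import Pool.Agent.Helper50_WAP.APO
import Pool.Agent.Helper50_WAP.TOR
import Pool.Agent.Helper51_WAP.MZZ
import Pool.Agent.Helper52_WAP.ZSL
import Pool.Agent.Helper53_WAP.ADN
import Pool.Agent.Helper53_WAP.TYS
import Pool.Agent.Helper54_WAP.CRT
import Pool.Agent.Helper54_WAP.DNS
import Pool.Agent.Helper54_WAP.RAM
import Pool.Agent.Helper54_WAP.RHO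
import Pool.Agent.Helper54_WAP.ZEQ
import Pool.Agent.Helper57_WAP.CPH
import Pool.Agent.Helper57_WAP.ZES
import Pool.Agent.Helper59_WAP.IDN
import Pool.Agent.Helper59_WAP.UNI
import Pool.Agent.Helper5_WAP.APP
import Pool.Agent.Helper5_WAP.KUC
import Pool.Agent.Helper60_WAP.CNS
import Pool.Agent.Helper60_WAP.MEI
import Pool.Agent.Helper60_WAP.NCO
import Pool.Agent.Helper61_WAP.DIF
import Pool.Agent.Helper61_WAP.DIV
import Pool.Agent.Helper61_WAP.LOC
import Pool.Agent.Helper61_WAP.MCA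
import Pool.Agent.Helper62_WAP.CKF
import Pool.Agent.Helper62_WAP.DEP
import Pool.Agent.Helper62_WAP.RGO
import Pool.Agent.Helper65_WAP.KIL
import Pool.Agent.Helper66_WAP.MCK
import Pool.Agent.Helper67_WAP.RCG
import Pool.Agent.Helper67_WAP.RG1
import Pool.Agent.Helper67_WAP.RUB
import Pool.Agent.Helper69_WAP.MCY
import Pool.Agent.Helper6_WAP.NGL
import Pool.Agent.Helper70_WAP.KSC
import Pool.Agent.Helper74_WAP.MST
import Pool.Agent.Helper75_WAP.CRI
import Pool.Agent.Helper75_WAP.CXD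
import Pool.Agent.Helper76_WAP.APG
import Pool.Agent.Helper76_WAP.RUC
import Pool.Agent.Helper77_WAP.LVB
import Pool.Agent.Helper80_WAP.AAS
import Pool.Agent.Helper88_WAP.CNO
import Pool.Agent.Helper88_WAP.ZLV
import Pool.Agent.Helper89_WAP.LAX
import Pool.Agent.Helper89_WAP.LAY
import Pool.Agent.Helper89_WAP.LMF
import Pool.Agent.Helper8_WAP.CGE
import Pool.Agent.Helper90_WAP.CNJ
import Pool.Agent.Helper90_WAP.DNJ
import Pool.Agent.Helper90_WAP.JCO
import Pool.Agent.Helper90_WAP.JNE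
import Pool.Agent.Helper91_WAP.DNA
import Pool.Agent.Helper91_WAP.ZSM
import Pool.Agent.Helper94_WAP.MEE
import Pool.Agent.Helper94_WAP.PRF
import Pool.Agent.Helper95_WAP.BFS
import Pool.Agent.Helper95_WAP.BLO
import Pool.Agent.Helper95_WAP.BWA
import Pool.Agent.Helper95_WAP.TYO
import Pool.Agent.Helper97_WAP.GDF
import Pool.Agent.Helper97_WAP.LIN

/-!
# WAP: assembly of the rows
-/

namespace Pool.Agent.WAP.Main

open Pool.Agent.WAP

section T
theorem smn : SmnStmt := H19.smn H53.adn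
theorem loc : LocStmt := H61.loc H61.dif
theorem kuc : KucStmt := H5.kuc H32.trx
theorem zsm : ZsmStmt := H91.zsm H32.zad smn
theorem inj : InjStmt := H35.inj zsm H53.adn
theorem cna : CnaStmt := H32.cna H97.gdf H40.fra H40.fre kuc loc H53.adn smn
theorem dna : DnaStmt := H91D.dna H97.gdf H40.fra H40.fre kuc inj H24.inf
theorem rg2 : Rg2Stmt := H12.rg2 H97.gdf loc smn H32.trx
theorem con : ConStmt := H33.con cna H60.cns H90.cnj
theorem den : DenStmt := H33.den dna H54.dns H90.dnj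
theorem rgo : RgoStmt := H62.rgo H67.rg1 rg2
end T

section I
theorem ruc : RucStmt := H76.ruc con
theorem rui : RuiStmt := H2.rui H40.inv H5.app
theorem rud : RudStmt := H33.rud H40.inv con den H5.app rui
theorem rub : RubStmt := H67.rub H40.bch
end I

section L
theorem zal : ZalStmt := H26.zal H54.zeq
theorem zsl : ZslStmt := H52.zsl H54.zeq zal
theorem zlv : ZlvStmt := H88.zlv H54.zeq zal zsl
theorem dgn : DgnStmt := H27.dgn zal zsl zlv
theorem div : DivStmt := H61D.div H54.zeq zal zsl zlv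
theorem cnt : CntStmt := H33.cnt zlv H75.cri
theorem hal : HalStmt := H10.hal H89.lmf
theorem nco : NcoStmt := H60.nco hal
theorem deg : DegStmt := H16.deg H94.prf H89.lmf nco
theorem tob : TobStmt := H46.tob H33.gnp nco deg
theorem tor' : TorStmt := H50.tor tob
theorem pt2 : Pt2Stmt := H45.pt2 zlv cnt H54.ram
theorem mcy : McyStmt := H69.mcy zlv div cnt H54.ram tor' H62.dep H61M.mca pt2
theorem kil : KilStmt := H65.kil zlv cnt H54.ram pt2
theorem mck : MckStmt := H66.mck zlv dgn cnt H54.ram pt2 mcy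
theorem uni : UniStmt := H59.uni zlv mck
theorem lvb : LvbStmt := H77.lvb H54.zeq
theorem mzz : MzzStmt := H51.mzz H54.zeq
theorem lin : LinStmt := H97.lin H54.zeq zal zsl
theorem ckf : CkfStmt := H62.ckf H40.fra
theorem ngl : NglStmt := H6.ngl H61.dif
theorem k2g : K2gStmt := H23.k2g H10.vex H89.lax
theorem nqt : NqtStmt := H44.nqt H97.gdf H40.fra kuc H39.nrm kil lvb zlv k2g
theorem rcg : RcgStmt := H67.rcg H97.gdf H40.fra kuc H39.nrm uni zlv lvb H24.inf ngl
theorem mee : MeeStmt := H94.mee H97.gdf H40.fra H39.nrm mzz lin zlv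
theorem mei : MeiStmt := H60.mei H97.gdf H40.fra H24.inf lvb zlv mzz lin
theorem apg : ApgStmt := H76.apg H97.gdf ckf kuc loc lvb zlv
theorem apo : ApoStmt := H50.apo H39.nrm mzz zlv dgn apg
theorem apt : AptStmt := H49.apt zlv dgn apg
end L

section P2
theorem aas : P2.AasStmt := H80.aas H27.col H19.evn
theorem bs1 : P2.Bs1Stmt := H2.bs1 H53.tys H40.fre
theorem bat : BatStmt := H35.bat H10.vex H95.tyo H59.idn H54.rho H19.evn aas bs1 H40.fre H40.inv con den
end P2

section C
theorem zes : C.ZesStmt := H57.zes H1.cza H49.cxf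
theorem cli : C.CliStmt := H47.cli zes
theorem cdf : C.CdfStmt := H13.cdf H49.cxf
theorem cph : C.CphStmt := H57.cph cdf H49.cxf
theorem ctb : C.CtbStmt := H24.ctb cli cph H49.cxf
theorem cno : C.CnoStmt := H88.cno ctb H49.cxf
theorem cct : C.CctStmt := H13.cct H97.gdf H32.trx
theorem cgr : C.CgrStmt := H95.cgr zes H49.cxf
theorem cdv : C.CdvStmt := H8.cdv H89.lay H49.cxf
theorem cge : C.CgeStmt := H8.cge cli cgr cdv cph cct
theorem cfi : C.CfiStmt :=
  H46.cfi cno cge H70.ksc H49.cxf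
theorem cxd : CxdStmt := H75.cxd cfi con H40.fra
end C

section F
theorem sap : SapStmt := H13.sap nqt H40.cmp H13.egn
theorem mst : MstStmt :=
  MST.mst mei mee H90.jco H90.jne rcg sap H35.apx ruc rud rui H40.inv H40.cmp
theorem ind : IndStmt := H13.ind mst bat ruc rud H5.app rgo
theorem fin : FinStmt :=
  H13.fin ind apo apt cxd H54.crt ruc rud rub H40.bck H2.fun'
theorem bfs : H95.BfsStmt :=
  H95.bfs H95.blo (H95.bwa H54.crt) fin
theorem bfi : BfiStmt := H95.bfi H95.blo (H95.bwa H54.crt) fin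
theorem prj : PrjStmt := H90.prj H95.blo bfi
end F

end Pool.Agent.WAP.Main
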